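import Mathlib
import Pool.Agent.H13.Builder

set_option autoImplicit false

namespace Pool.Agent.Results.MP_f79b02_co.Finite

open Pool.Agent.H13.Builder

theorem result (k : ℕ) : ∃ (V : Type) (_ : Finite V) (G : SimpleGraph V) (t : ℕ),
    G.CliqueFree 3 ∧ Force k t V G := by
  obtain ⟨V, h, G, t, h1, h2⟩ := forest k
  exact ⟨V, h, G, t, h1.cliqueFree le_rfl, h2⟩

end Pool.Agent.Results.MP_f79b02_co.Finite
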